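import Mathlib

/-!
PAR (MP_4d57ea_nt): the family.

f(x) = x^3 + K, K = k T^2 (T + k)^3 L^3. With G = T (j^2+j+1) + 3 k:
  a = L ((j+1) T G - k (T+k)),   b = - L (j T G + k (T+k)),   c = T L (k - G),
  v = T L (T + k - G),   sigma = a + b + c = - k (T + 2k) L,
  Phi = - T G^3 + 3 k T G^2 + k T (k + 2T) G + k^2 (k^2 - T^2),   ab+bc+ca = L^2 Phi,
  D = k (T + 2k),  D q = L Phi,   u = - q - v.
Then (a + th)(b + th)(c + th) = sigma (u + th)(v + th) for th^3 = K, so
f(a) f(b) f(c) = sigma^3 f(u) f(v).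
-/

namespace Pool.Agent.H12.PAR

/-- Liouville function of an integer (of its absolute value) -/
def lam (x : ℤ) : ℤ := (-1) ^ ArithmeticFunction.cardFactors x.natAbs

theorem lam_mul {x y : ℤ} (hx : x ≠ 0) (hy : y ≠ 0) : lam (x * y) = lam x * lam y := by
  unfold lam
  rw [Int.natAbs_mul, ArithmeticFunction.cardFactors_mul (Int.natAbs_ne_zero.mpr hx)
    (Int.natAbs_ne_zero.mpr hy), pow_add]

theorem lam_cases (x : ℤ) : lam x = 1 ∨ lam x = -1 := by
  unfold lam
  exact neg_one_pow_eq_or ℤ _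

theorem lam_sq (x : ℤ) : lam x * lam x = 1 := by
  rcases lam_cases x with h | h <;> rw [h] <;> norm_num

theorem lam_cube {x : ℤ} (hx : x ≠ 0) : lam (x ^ 3) = lam x := by
  have h1 : x ^ 3 = x * x * x := by ring
  rw [h1, lam_mul (mul_ne_zero hx hx) hx, lam_mul hx hx, lam_sq, one_mul]

/-- the norm identity -/
theorem norm_identity {K a b c u v s : ℤ} (h1 : a + b + c = s)
    (h2 : a * b + b * c + c * a = s * (u + v)) (h3 : a * b * c + K = s * u * v) :
    (a ^ 3 + K) * (b ^ 3 + K) * (c ^ 3 + K) = s ^ 3 * ((u ^ 3 + K) * (v ^ 3 + K)) := by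
  have e : (a ^ 3 + K) * (b ^ 3 + K) * (c ^ 3 + K) =
      (a * b * c + K) ^ 3 + K * ((a * b + b * c + c * a) ^ 3 -
        3 * (a + b + c) * (a * b + b * c + c * a) * (a * b * c + K)) +
        K ^ 2 * (a + b + c) ^ 3 := by ring
  rw [e, h1, h2, h3]
  ring

/-- among the five numbers one has the Liouville value of s -/
theorem one_of_five {K a b c u v s : ℤ} (hs : s ≠ 0) (h1 : a + b + c = s)
    (h2 : a * b + b * c + c * a = s * (u + v)) (h3 : a * b * c + K = s * u * v)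
    (ha : a ^ 3 + K ≠ 0) (hb : b ^ 3 + K ≠ 0) (hc : c ^ 3 + K ≠ 0)
    (hu : u ^ 3 + K ≠ 0) (hv : v ^ 3 + K ≠ 0) :
    lam (a ^ 3 + K) = lam s ∨ lam (b ^ 3 + K) = lam s ∨ lam (c ^ 3 + K) = lam s ∨
      lam (u ^ 3 + K) = lam s ∨ lam (v ^ 3 + K) = lam s := by
  have key := congrArg lam (norm_identity h1 h2 h3)
  rw [lam_mul (mul_ne_zero ha hb) hc, lam_mul ha hb,
    lam_mul (pow_ne_zero 3 hs) (mul_ne_zero hu hv), lam_cube hs, lam_mul hu hv] at key
  rcases lam_cases (a ^ 3 + K) with h | h <;> rcases lam_cases (b ^ 3 + K) with h' | h' <;>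
    rcases lam_cases (c ^ 3 + K) with h'' | h'' <;> rcases lam_cases (u ^ 3 + K) with g | g <;>
    rcases lam_cases (v ^ 3 + K) with g' | g' <;> rcases lam_cases s with t | t <;>
    rw [h, h', h'', g, g', t] at key ⊢ <;> first | (exfalso; norm_num at key; done) | norm_num

/-- G = T (j^2+j+1) + 3k -/
def GG (k T j : ℤ) : ℤ := T * (j ^ 2 + j + 1) + 3 * k

/-- Phi -/
def Phi (k T j : ℤ) : ℤ :=
  -T * GG k T j ^ 3 + 3 * k * T * GG k T j ^ 2 + k * T * (k + 2 * T) * GG k T j +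
    k ^ 2 * (k ^ 2 - T ^ 2)

def aa (k T L j : ℤ) : ℤ := L * ((j + 1) * T * GG k T j - k * (T + k))

def bb (k T L j : ℤ) : ℤ := -L * (j * T * GG k T j + k * (T + k))

def cc (k T L j : ℤ) : ℤ := T * L * (k - GG k T j)

def vv (k T L j : ℤ) : ℤ := T * L * (T + k - GG k T j)

/-- u, given q with k (T+2k) q = L Phi -/
def uu (k T L j q : ℤ) : ℤ := -q - vv k T L j

theorem rel1 (k T L j : ℤ) :
    aa k T L j + bb k T L j + cc k T L j = -(k * (T + 2 * k) * L) := by
  unfold aa bb cc GG; ring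

theorem rel2 {k T L j q : ℤ} (hq : k * (T + 2 * k) * q = L * Phi k T j) :
    aa k T L j * bb k T L j + bb k T L j * cc k T L j + cc k T L j * aa k T L j =
      -(k * (T + 2 * k) * L) * (uu k T L j q + vv k T L j) := by
  have h1 : aa k T L j * bb k T L j + bb k T L j * cc k T L j + cc k T L j * aa k T L j =
      L * (L * Phi k T j) := by
    unfold aa bb cc Phi GG; ring
  rw [h1, ← hq]
  unfold uu
  ring

theorem rel3 {k T L j q : ℤ} (hq : k * (T + 2 * k) * q = L * Phi k T j) :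
    aa k T L j * bb k T L j * cc k T L j + k * T ^ 2 * (T + k) ^ 3 * L ^ 3 =
      -(k * (T + 2 * k) * L) * uu k T L j q * vv k T L j := by
  have h1 : aa k T L j * bb k T L j * cc k T L j + k * T ^ 2 * (T + k) ^ 3 * L ^ 3 =
      L * vv k T L j * (L * Phi k T j + k * (T + 2 * k) * vv k T L j) := by
    unfold aa bb cc vv Phi GG; ring
  rw [h1, ← hq]
  unfold uu
  ring

end Pool.Agent.H12.PAR
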