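import Mathlib
import Pool.Agent.H12.PAR.Fam

/-!
PAR: injectivity, growth and counting.
-/

namespace Pool.Agent.H12.PAR

/-- u as a function of j without division: E = k (T+2k) * u -/
theorem uu_mul {k T L j q : ℤ} (hq : k * (T + 2 * k) * q = L * Phi k T j) :
    k * (T + 2 * k) * uu k T L j q = -(L * Phi k T j) - k * (T + 2 * k) * vv k T L j := by
  unfold uu
  linear_combination -hq

theorem GG_sub (k T j j' : ℤ) : GG k T j - GG k T j' = T * (j - j') * (j + j' + 1) := by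
  unfold GG; ring

theorem GG_inj {k T j j' : ℤ} (hh : T ≠ 0) (hj : 0 ≤ j) (hj' : 0 ≤ j')
    (e : GG k T j = GG k T j') : j = j' := by
  have h1 := GG_sub k T j j'
  rw [e, sub_self] at h1
  have h2 : j + j' + 1 ≠ 0 := by omega
  have h3 : j - j' = 0 := by
    rcases mul_eq_zero.mp h1.symm with h4 | h4
    · rcases mul_eq_zero.mp h4 with h5 | h5
      · exact absurd h5 (hh)
      · exact h5
    · exact absurd h4 h2
  omega

theorem cc_inj {k T L j j' : ℤ} (hh : T ≠ 0) (hL : L ≠ 0) (hj : 0 ≤ j) (hj' : 0 ≤ j')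
    (e : cc k T L j = cc k T L j') : j = j' := by
  unfold cc at e
  have h1 := mul_left_cancel₀ (mul_ne_zero (hh) hL) e
  exact GG_inj hh hj hj' (by linarith)

theorem vv_inj {k T L j j' : ℤ} (hh : T ≠ 0) (hL : L ≠ 0) (hj : 0 ≤ j) (hj' : 0 ≤ j')
    (e : vv k T L j = vv k T L j') : j = j' := by
  unfold vv at e
  have h1 := mul_left_cancel₀ (mul_ne_zero (hh) hL) e
  exact GG_inj hh hj hj' (by linarith)

/-- the threshold -/
def J0 (k T : ℤ) : ℤ := 6 * |k| + |T| + 1

theorem J0_pos (k T : ℤ) : 1 ≤ J0 k T := by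
  unfold J0
  have h1 := abs_nonneg k
  have h2 := abs_nonneg (T)
  linarith

private theorem lin_ne {k T w : ℤ} (hT : T ≠ 0) (hw : 3 * |k| < w) : T * w + 3 * k ≠ 0 := by
  intro h
  have h0 : 0 ≤ |k| := abs_nonneg k
  have h1 : |T * w| = |3 * k| := by
    have h2 : T * w = -(3 * k) := by linarith
    rw [h2, abs_neg]
  rw [abs_mul, abs_mul, abs_of_pos (by linarith : 0 < w), abs_of_pos (by norm_num : (0 : ℤ) < 3)] at h1
  have h3 : 1 ≤ |T| := Int.one_le_abs hT
  nlinarith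

theorem aa_inj {k T L j j' : ℤ} (hh : T ≠ 0) (hL : L ≠ 0) (hj : J0 k T ≤ j) (hj' : J0 k T ≤ j')
    (e : aa k T L j = aa k T L j') : j = j' := by
  unfold J0 at hj hj'
  have hk0 := abs_nonneg k
  have hT0 := abs_nonneg (T)
  have hT : T ≠ 0 := hh
  unfold aa at e
  have h1 := mul_left_cancel₀ hL e
  have h2 : T * ((j - j') * (T * (j ^ 2 + j * j' + j' ^ 2 + 2 * (j + j') + 2) + 3 * k)) = 0 := by
    unfold GG at h1
    linear_combination h1
  have h3 : T * (j ^ 2 + j * j' + j' ^ 2 + 2 * (j + j') + 2) + 3 * k ≠ 0 := by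
    apply lin_ne hT
    nlinarith [mul_nonneg (by linarith : (0 : ℤ) ≤ j) (by linarith : (0 : ℤ) ≤ j'), sq_nonneg j,
      sq_nonneg j']
  rcases mul_eq_zero.mp h2 with h4 | h4
  · exact absurd h4 hT
  · rcases mul_eq_zero.mp h4 with h5 | h5
    · omega
    · exact absurd h5 h3

theorem bb_inj {k T L j j' : ℤ} (hh : T ≠ 0) (hL : L ≠ 0) (hj : J0 k T ≤ j) (hj' : J0 k T ≤ j')
    (e : bb k T L j = bb k T L j') : j = j' := by
  unfold J0 at hj hj'
  have hk0 := abs_nonneg k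
  have hT0 := abs_nonneg (T)
  have hT : T ≠ 0 := hh
  unfold bb at e
  have h1 := mul_left_cancel₀ (neg_ne_zero.mpr hL) e
  have h2 : T * ((j - j') * (T * (j ^ 2 + j * j' + j' ^ 2 + (j + j') + 1) + 3 * k)) = 0 := by
    unfold GG at h1
    linear_combination h1
  have h3 : T * (j ^ 2 + j * j' + j' ^ 2 + (j + j') + 1) + 3 * k ≠ 0 := by
    apply lin_ne hT
    nlinarith [mul_nonneg (by linarith : (0 : ℤ) ≤ j) (by linarith : (0 : ℤ) ≤ j'), sq_nonneg j,
      sq_nonneg j']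
  rcases mul_eq_zero.mp h2 with h4 | h4
  · exact absurd h4 hT
  · rcases mul_eq_zero.mp h4 with h5 | h5
    · omega
    · exact absurd h5 h3

private theorem Wpos {k T x y : ℤ} (hx : 3 * |k| + |T| + 1 ≤ x) (hy : 3 * |k| + |T| + 1 ≤ y) :
    0 < x ^ 2 + x * y + y ^ 2 - 3 * k * (x + y) + k * (k - T) := by
  have hk0 := abs_nonneg k
  have hT0 := abs_nonneg T
  have h1 : k ≤ |k| := le_abs_self k
  have h2 : k * T ≤ |k| * |T| := by rw [← abs_mul]; exact le_abs_self _
  have h3 : 3 * k * (x + y) ≤ 3 * |k| * (x + y) := by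
    apply mul_le_mul_of_nonneg_right _ (by linarith)
    linarith
  have h4 : (3 * |k| + |T| + 1) * x ≤ x * x := mul_le_mul_of_nonneg_right hx (by linarith)
  have h5 : (3 * |k| + |T| + 1) * y ≤ y * y := mul_le_mul_of_nonneg_right hy (by linarith)
  have h6 : |k| * |T| ≤ x * y := by
    apply mul_le_mul _ _ hT0 (by linarith) <;> linarith
  nlinarith [sq_nonneg k, mul_nonneg hT0 (by linarith : (0 : ℤ) ≤ x),
    mul_nonneg hT0 (by linarith : (0 : ℤ) ≤ y)]

private theorem Wne {k T j j' : ℤ} (hh : T ≠ 0) (hj : J0 k T ≤ j) (hj' : J0 k T ≤ j') :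
    GG k T j ^ 2 + GG k T j * GG k T j' + GG k T j' ^ 2 - 3 * k * (GG k T j + GG k T j') +
      k * (k - T) ≠ 0 := by
  unfold J0 at hj hj'
  have hk0 := abs_nonneg k
  have hT0 := abs_nonneg (T)
  have hT : T ≠ 0 := hh
  have hk1 := neg_abs_le k
  have hk2 := le_abs_self k
  rcases lt_or_gt_of_ne hT with hneg | hpos
  · -- T < 0
    have hT1 : T ≤ -1 := by omega
    have b1 : ∀ i : ℤ, 6 * |k| + |T| + 1 ≤ i → 3 * |(-k)| + |(-T)| + 1 ≤ -GG k T i := by
      intro i hi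
      rw [abs_neg, abs_neg]
      unfold GG
      nlinarith [sq_nonneg i, mul_nonneg (by linarith : (0 : ℤ) ≤ -1 - T)
        (by nlinarith [sq_nonneg i] : (0 : ℤ) ≤ i ^ 2 + i + 1)]
    have w := Wpos (b1 j hj) (b1 j' hj')
    intro h0
    have e1 : (-GG k T j) ^ 2 + (-GG k T j) * (-GG k T j') + (-GG k T j') ^ 2 -
        3 * (-k) * ((-GG k T j) + (-GG k T j')) + (-k) * ((-k) - (-T)) = 0 := by
      linear_combination h0
    rw [e1] at w
    exact lt_irrefl _ w
  · have hT1 : 1 ≤ T := by omega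
    have b1 : ∀ i : ℤ, 6 * |k| + |T| + 1 ≤ i → 3 * |k| + |T| + 1 ≤ GG k T i := by
      intro i hi
      unfold GG
      nlinarith [sq_nonneg i, mul_nonneg (by linarith : (0 : ℤ) ≤ T - 1)
        (by nlinarith [sq_nonneg i] : (0 : ℤ) ≤ i ^ 2 + i + 1)]
    have w := Wpos (b1 j hj) (b1 j' hj')
    intro h0
    rw [h0] at w
    exact lt_irrefl _ w

theorem uu_inj {k T L j j' q q' : ℤ} (hh : T ≠ 0) (hL : L ≠ 0)
    (hj : J0 k T ≤ j) (hj' : J0 k T ≤ j')
    (hq : k * (T + 2 * k) * q = L * Phi k T j)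
    (hq' : k * (T + 2 * k) * q' = L * Phi k T j')
    (e : uu k T L j q = uu k T L j' q') : j = j' := by
  have hT : T ≠ 0 := hh
  have e1 := uu_mul hq
  have e2 := uu_mul hq'
  rw [e, e2] at e1
  have h1 : (GG k T j - GG k T j') * (L * (T * (GG k T j ^ 2 + GG k T j * GG k T j' +
      GG k T j' ^ 2 - 3 * k * (GG k T j + GG k T j') + k * (k - T)))) = 0 := by
    unfold Phi vv at e1
    linear_combination -e1
  rcases mul_eq_zero.mp h1 with h2 | h2
  · exact GG_inj hh (by linarith [J0_pos k T]) (by linarith [J0_pos k T]) (by linarith)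
  · exfalso
    rcases mul_eq_zero.mp h2 with h3 | h3
    · exact hL h3
    · rcases mul_eq_zero.mp h3 with h4 | h4
      · exact hT h4
      · exact Wne hh hj hj' h4

end Pool.Agent.H12.PAR
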