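import Mathlib
import Pool.Agent.H12.PAR.Count

/-!
PAR: growth bounds |p(j)| <= C j^6 and nonvanishing.
-/

namespace Pool.Agent.H12.PAR

/-- |p j| <= C j^d for j >= 1 -/
def PB (p : ℤ → ℤ) (d : ℕ) : Prop := ∃ C : ℤ, 0 ≤ C ∧ ∀ j : ℤ, 1 ≤ j → |p j| ≤ C * j ^ d

theorem PB.const (c : ℤ) : PB (fun _ => c) 0 :=
  ⟨|c|, abs_nonneg c, fun j _ => by simp⟩

theorem PB.id' : PB (fun j => j) 1 :=
  ⟨1, by norm_num, fun j hj => by rw [abs_of_pos (by linarith)]; simp⟩

theorem PB.add {p q : ℤ → ℤ} {d : ℕ} (hp : PB p d) (hq : PB q d) :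
    PB (fun j => p j + q j) d := by
  obtain ⟨C, hC, h⟩ := hp
  obtain ⟨C', hC', h'⟩ := hq
  refine ⟨C + C', by linarith, fun j hj => ?_⟩
  calc |p j + q j| ≤ |p j| + |q j| := abs_add_le _ _
    _ ≤ C * j ^ d + C' * j ^ d := add_le_add (h j hj) (h' j hj)
    _ = (C + C') * j ^ d := by ring

theorem PB.mul {p q : ℤ → ℤ} {d e : ℕ} (hp : PB p d) (hq : PB q e) :
    PB (fun j => p j * q j) (d + e) := by
  obtain ⟨C, hC, h⟩ := hp
  obtain ⟨C', hC', h'⟩ := hq
  refine ⟨C * C', by positivity, fun j hj => ?_⟩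
  have hj0 : 0 ≤ j := by linarith
  calc |p j * q j| = |p j| * |q j| := abs_mul _ _
    _ ≤ (C * j ^ d) * (C' * j ^ e) := mul_le_mul (h j hj) (h' j hj) (abs_nonneg _) (by positivity)
    _ = C * C' * j ^ (d + e) := by rw [pow_add]; ring

theorem PB.mono {p : ℤ → ℤ} {d e : ℕ} (hp : PB p d) (hde : d ≤ e) : PB p e := by
  obtain ⟨C, hC, h⟩ := hp
  refine ⟨C, hC, fun j hj => (h j hj).trans ?_⟩
  exact mul_le_mul_of_nonneg_left (pow_le_pow_right₀ hj hde) hC

theorem PB.congr {p q : ℤ → ℤ} {d : ℕ} (hp : PB p d) (h : ∀ j, q j = p j) : PB q d := by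
  have : q = p := funext h
  rw [this]; exact hp

theorem PB_GG (k T : ℤ) : PB (GG k T) 2 := by
  have h1 : PB (fun j => T * (j * j)) 2 :=
    ((PB.const (T)).mul (PB.id'.mul PB.id')).mono (by norm_num)
  have h2 : PB (fun j => T * j) 2 := ((PB.const (T)).mul PB.id').mono (by norm_num)
  have h3 : PB (fun _ => T + 3 * k) 2 := (PB.const (T + 3 * k)).mono (by norm_num)
  refine ((h1.add h2).add h3).congr (fun j => ?_)
  unfold GG; ring

theorem PB_aa (k T L : ℤ) : PB (aa k T L) 6 := by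
  have g := PB_GG k T
  have h1 : PB (fun j => L * T * (j * GG k T j)) 6 :=
    ((PB.const (L * T)).mul (PB.id'.mul g)).mono (by norm_num)
  have h2 : PB (fun j => L * T * GG k T j) 6 :=
    ((PB.const (L * T)).mul g).mono (by norm_num)
  have h3 : PB (fun _ => -L * (k * (T + k))) 6 :=
    (PB.const (-L * (k * (T + k)))).mono (by norm_num)
  refine ((h1.add h2).add h3).congr (fun j => ?_)
  unfold aa; ring

theorem PB_bb (k T L : ℤ) : PB (bb k T L) 6 := by
  have g := PB_GG k T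
  have h1 : PB (fun j => -L * T * (j * GG k T j)) 6 :=
    ((PB.const (-L * T)).mul (PB.id'.mul g)).mono (by norm_num)
  have h3 : PB (fun _ => -L * (k * (T + k))) 6 :=
    (PB.const (-L * (k * (T + k)))).mono (by norm_num)
  refine (h1.add h3).congr (fun j => ?_)
  unfold bb; ring

theorem PB_cc (k T L : ℤ) : PB (cc k T L) 6 := by
  have g := PB_GG k T
  have h1 : PB (fun j => -(T * L) * GG k T j) 6 :=
    ((PB.const (-(T * L))).mul g).mono (by norm_num)
  have h3 : PB (fun _ => T * L * k) 6 := (PB.const (T * L * k)).mono (by norm_num)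
  refine (h1.add h3).congr (fun j => ?_)
  unfold cc; ring

theorem PB_vv (k T L : ℤ) : PB (vv k T L) 6 := by
  have g := PB_GG k T
  have h1 : PB (fun j => -(T * L) * GG k T j) 6 :=
    ((PB.const (-(T * L))).mul g).mono (by norm_num)
  have h3 : PB (fun _ => T * L * (T + k)) 6 :=
    (PB.const (T * L * (T + k))).mono (by norm_num)
  refine (h1.add h3).congr (fun j => ?_)
  unfold vv; ring

theorem PB_Phi (k T : ℤ) : PB (Phi k T) 6 := by
  have g := PB_GG k T
  have h1 : PB (fun j => -T * (GG k T j * (GG k T j * GG k T j))) 6 :=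
    ((PB.const (-T)).mul (g.mul (g.mul g))).mono (by norm_num)
  have h2 : PB (fun j => 3 * k * T * (GG k T j * GG k T j)) 6 :=
    ((PB.const (3 * k * T)).mul (g.mul g)).mono (by norm_num)
  have h3 : PB (fun j => k * T * (k + 2 * T) * GG k T j) 6 :=
    ((PB.const (k * T * (k + 2 * T))).mul g).mono (by norm_num)
  have h4 : PB (fun _ => k ^ 2 * (k ^ 2 - T ^ 2)) 6 :=
    (PB.const (k ^ 2 * (k ^ 2 - T ^ 2))).mono (by norm_num)
  refine (((h1.add h2).add h3).add h4).congr (fun j => ?_)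
  unfold Phi; ring

/-- bound for u, whatever q is -/
theorem uu_bound (k T L : ℤ) (hk : k ≠ 0) (h2 : T + 2 * k ≠ 0) :
    ∃ C : ℤ, 0 ≤ C ∧ ∀ j q : ℤ, 1 ≤ j → k * (T + 2 * k) * q = L * Phi k T j →
      |uu k T L j q| ≤ C * j ^ 6 := by
  have h3 : PB (fun j => -L * Phi k T j + -(k * (T + 2 * k)) * vv k T L j) 6 := by
    have a1 : PB (fun j => -L * Phi k T j) 6 := ((PB.const (-L)).mul (PB_Phi k T)).mono (by norm_num)
    have a2 : PB (fun j => -(k * (T + 2 * k)) * vv k T L j) 6 :=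
      ((PB.const (-(k * (T + 2 * k)))).mul (PB_vv k T L)).mono (by norm_num)
    exact a1.add a2
  obtain ⟨C, hC, hb⟩ := h3
  refine ⟨C, hC, fun j q hj hq => ?_⟩
  have e := uu_mul hq
  have e2 : k * (T + 2 * k) * uu k T L j q =
      -L * Phi k T j + -(k * (T + 2 * k)) * vv k T L j := by rw [e]; ring
  have b := hb j hj
  simp only at b
  rw [← e2, abs_mul] at b
  have hD : 1 ≤ |k * (T + 2 * k)| := Int.one_le_abs (mul_ne_zero hk h2)
  calc |uu k T L j q| = 1 * |uu k T L j q| := (one_mul _).symm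
    _ ≤ |k * (T + 2 * k)| * |uu k T L j q| := mul_le_mul_of_nonneg_right hD (abs_nonneg _)
    _ ≤ C * j ^ 6 := b

/-- the divisibility condition is periodic -/
theorem Phi_periodic {k T L j j' D : ℤ} (hD : D ∣ L * Phi k T j) (hj : D ∣ j' - j) :
    D ∣ L * Phi k T j' := by
  have h1 : (j' - j) ∣ Phi k T j' - Phi k T j := by
    have e : Phi k T j' - Phi k T j = (GG k T j' - GG k T j) *
        (-T * (GG k T j' ^ 2 + GG k T j' * GG k T j + GG k T j ^ 2) +
          3 * k * T * (GG k T j' + GG k T j) + k * T * (k + 2 * T)) := by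
      unfold Phi; ring
    rw [e, GG_sub]
    exact Dvd.intro (T * (j' + j + 1) * (-T * (GG k T j' ^ 2 + GG k T j' * GG k T j +
      GG k T j ^ 2) + 3 * k * T * (GG k T j' + GG k T j) + k * T * (k + 2 * T)))
      (by ring)
  have h2 : D ∣ L * (Phi k T j' - Phi k T j) := (hj.trans h1).mul_left L
  have e : L * Phi k T j' = L * Phi k T j + L * (Phi k T j' - Phi k T j) := by ring
  rw [e]
  exact dvd_add hD h2

end Pool.Agent.H12.PAR
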