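import Mathlib
import Pool.Agent.H12.PAR.Bound

/-!
PAR: counting.
-/

namespace Pool.Agent.H12.PAR

private theorem cube_inj {x y K : ℤ} (hx : x ^ 3 + K = 0) (hy : y ^ 3 + K = 0) : x = y := by
  have h : x ^ 3 = y ^ 3 := by linarith
  exact (Odd.strictMono_pow (by decide : Odd 3)).injective h

private theorem ev_ne (f : ℕ → ℤ) (hf : Function.Injective f) (K : ℤ) :
    ∃ I : ℕ, ∀ i, I ≤ i → f i ^ 3 + K ≠ 0 := by
  by_cases h : ∃ i, f i ^ 3 + K = 0
  · obtain ⟨i, hi⟩ := h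
    refine ⟨i + 1, fun i' hi' h0 => ?_⟩
    have := hf (cube_inj h0 hi)
    omega
  · push Not at h
    exact ⟨0, fun i _ => h i⟩

private theorem lam_neg (x : ℤ) : lam (-x) = lam x := by
  unfold lam; rw [Int.natAbs_neg]

/-- abstract counting: g takes each value at most five times, |g i| <= C (i+1)^6 -/
private theorem count_abs (P : ℤ → Prop) [DecidablePred P] (g : ℕ → ℤ) (F : Fin 5 → ℕ → ℤ)
    (hF : ∀ t, Function.Injective (F t)) (I0 C : ℕ) (hC : 1 ≤ C)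
    (hg : ∀ i, I0 ≤ i → P (g i) ∧ ∃ t, g i = F t i)
    (hb : ∀ i, I0 ≤ i → |g i| ≤ C * ((i : ℤ) + 1) ^ 6) :
    ∃ c : ℝ, 0 < c ∧ ∃ X0 : ℕ, ∀ X : ℕ, X0 ≤ X →
      c * (X : ℝ) ^ ((1 : ℝ) / 6) ≤ (((Finset.Icc (-(X : ℤ)) X).filter P).card : ℝ) := by
  classical
  have hCr : (0 : ℝ) < C := by exact_mod_cast hC
  refine ⟨1 / (10 * (C : ℝ) ^ ((1 : ℝ) / 6)), by positivity, C * (2 * (1 + I0)) ^ 6, fun X hX => ?_⟩
  set y : ℝ := ((X : ℝ) / C) ^ ((1 : ℝ) / 6) with hy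
  have hy0 : 0 ≤ y := by positivity
  have hy6 : y ^ 6 = (X : ℝ) / C := by
    rw [hy, ← Real.rpow_natCast, ← Real.rpow_mul (by positivity)]
    norm_num
  have hyI : (2 * (1 + I0) : ℝ) ≤ y := by
    have h1 : ((2 * (1 + I0) : ℝ)) ^ 6 ≤ y ^ 6 := by
      rw [hy6, le_div_iff₀ hCr]
      have : ((C * (2 * (1 + I0)) ^ 6 : ℕ) : ℝ) ≤ (X : ℝ) := by exact_mod_cast hX
      push_cast at this
      linarith
    exact le_of_pow_le_pow_left₀ (by norm_num) hy0 h1
  set R : ℕ := ⌊y⌋₊ with hR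
  have hR1 : (R : ℝ) ≤ y := Nat.floor_le hy0
  have hR2 : y < R + 1 := Nat.lt_floor_add_one y
  have hlhs : 1 / (10 * (C : ℝ) ^ ((1 : ℝ) / 6)) * (X : ℝ) ^ ((1 : ℝ) / 6) = y / 10 := by
    rw [hy, Real.div_rpow (by positivity) (by positivity)]
    field_simp
  rw [hlhs]
  set S := (Finset.Icc (-(X : ℤ)) X).filter P with hS
  have himg : (Finset.Ico I0 R).image g ⊆ S := by
    intro m hm
    obtain ⟨i, hi, rfl⟩ := Finset.mem_image.mp hm
    rw [Finset.mem_Ico] at hi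
    rw [hS, Finset.mem_filter, Finset.mem_Icc]
    refine ⟨?_, (hg i hi.1).1⟩
    rw [← abs_le]
    have h1 := hb i hi.1
    have h2 : ((i : ℝ) + 1) ^ 6 ≤ (X : ℝ) / C := by
      rw [← hy6]
      have h3 : ((i : ℝ) + 1) ≤ y := by
        have : ((i + 1 : ℕ) : ℝ) ≤ (R : ℝ) := by exact_mod_cast hi.2
        push_cast at this
        linarith
      gcongr
    have h4 : (C : ℝ) * ((i : ℝ) + 1) ^ 6 ≤ X := by
      rw [le_div_iff₀ hCr] at h2
      linarith
    have h5 : (C : ℤ) * ((i : ℤ) + 1) ^ 6 ≤ X := by exact_mod_cast h4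
    linarith
  have hfib : ∀ m ∈ (Finset.Ico I0 R).image g, ((Finset.Ico I0 R).filter (fun i => g i = m)).card ≤ 5 := by
    intro m _
    have hsub : (Finset.Ico I0 R).filter (fun i => g i = m) ⊆
        Finset.univ.biUnion (fun t : Fin 5 => (Finset.Ico I0 R).filter (fun i => F t i = m)) := by
      intro i hi
      rw [Finset.mem_filter] at hi
      obtain ⟨t, ht⟩ := (hg i (Finset.mem_Ico.mp hi.1).1).2
      rw [Finset.mem_biUnion]
      exact ⟨t, Finset.mem_univ _, Finset.mem_filter.mpr ⟨hi.1, by rw [← ht]; exact hi.2⟩⟩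
    refine (Finset.card_le_card hsub).trans ?_
    refine (Finset.card_biUnion_le_card_mul _ _ 1 (fun t _ => ?_)).trans (by simp)
    rw [Finset.card_le_one]
    intro x hx x' hx'
    rw [Finset.mem_filter] at hx hx'
    exact hF t (hx.2.trans hx'.2.symm)
  have hcard : (Finset.Ico I0 R).card ≤ 5 * ((Finset.Ico I0 R).image g).card :=
    Finset.card_le_mul_card_image _ 5 hfib
  have hcard2 : R - I0 ≤ 5 * S.card := by
    rw [Nat.card_Ico] at hcard
    exact hcard.trans (Nat.mul_le_mul_left 5 (Finset.card_le_card himg))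
  have h6 : (R : ℝ) - I0 ≤ 5 * S.card := by
    have : R ≤ 5 * S.card + I0 := by omega
    have : (R : ℝ) ≤ 5 * S.card + I0 := by exact_mod_cast this
    linarith
  linarith

/-- the main counting theorem -/
theorem main {k T L j0 : ℤ} (hk : k ≠ 0) (hh : T ≠ 0) (h2 : T + 2 * k ≠ 0) (hL : L ≠ 0)
    (hdiv : k * (T + 2 * k) ∣ L * Phi k T j0) :
    ∃ c : ℝ, 0 < c ∧ ∃ X0 : ℕ, ∀ X : ℕ, X0 ≤ X →
      c * (X : ℝ) ^ ((1 : ℝ) / 6) ≤ (((Finset.Icc (-(X : ℤ)) X).filter (fun m : ℤ =>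
        m ^ 3 + k * T ^ 2 * (T + k) ^ 3 * L ^ 3 ≠ 0 ∧
        lam (m ^ 3 + k * T ^ 2 * (T + k) ^ 3 * L ^ 3) = lam (k * (T + 2 * k) * L))).card : ℝ) := by
  classical
  set K := k * T ^ 2 * (T + k) ^ 3 * L ^ 3 with hK
  set D : ℤ := |k * (T + 2 * k)| with hD
  have hD1 : 1 ≤ D := Int.one_le_abs (mul_ne_zero hk h2)
  -- shift
  set i0 : ℤ := |j0| + J0 k T with hi0
  have hJ0 := J0_pos k T
  have hi00 : 0 ≤ i0 := by
    rw [hi0]
    have := abs_nonneg j0
    linarith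
  let jj : ℕ → ℤ := fun i => j0 + D * (i0 + i)
  have hjj : ∀ i, J0 k T ≤ jj i := by
    intro i
    have hi : (0 : ℤ) ≤ i := by positivity
    have h3 : i0 + i ≤ D * (i0 + i) := by nlinarith
    have h4 := neg_abs_le j0
    show J0 k T ≤ j0 + D * (i0 + i)
    linarith
  have hjj1 : ∀ i, 1 ≤ jj i := fun i => hJ0.trans (hjj i)
  have hjinj : ∀ i i', jj i = jj i' → i = i' := by
    intro i i' e
    have e1 : D * (i0 + i) = D * (i0 + i') := by
      have : j0 + D * (i0 + i) = j0 + D * (i0 + i') := e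
      linarith
    have e2 := mul_left_cancel₀ (by omega : D ≠ 0) e1
    have e3 : (i : ℤ) = i' := by linarith
    exact_mod_cast e3
  have hq : ∀ i, ∃ q, k * (T + 2 * k) * q = L * Phi k T (jj i) := by
    intro i
    have h3 : k * (T + 2 * k) ∣ L * Phi k T (jj i) := by
      apply Phi_periodic hdiv
      have e : jj i - j0 = D * (i0 + i) := by
        show j0 + D * (i0 + i) - j0 = _
        ring
      rw [e]
      exact ((dvd_abs _ _).mpr dvd_rfl).mul_right _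
    obtain ⟨q, hq⟩ := h3
    exact ⟨q, hq.symm⟩
  choose q hq using hq
  let F : Fin 5 → ℕ → ℤ := ![fun i => aa k T L (jj i), fun i => bb k T L (jj i),
    fun i => cc k T L (jj i), fun i => vv k T L (jj i), fun i => uu k T L (jj i) (q i)]
  have hF : ∀ t, Function.Injective (F t) := by
    intro t
    fin_cases t
    · intro i i' e
      exact hjinj _ _ (aa_inj hh hL (hjj i) (hjj i') e)
    · intro i i' e
      exact hjinj _ _ (bb_inj hh hL (hjj i) (hjj i') e)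
    · intro i i' e
      exact hjinj _ _ (cc_inj hh hL (by linarith [hjj1 i]) (by linarith [hjj1 i']) e)
    · intro i i' e
      exact hjinj _ _ (vv_inj hh hL (by linarith [hjj1 i]) (by linarith [hjj1 i']) e)
    · intro i i' e
      exact hjinj _ _ (uu_inj hh hL (hjj i) (hjj i') (hq i) (hq i') e)
  choose I hI using fun t => ev_ne (F t) (hF t) K
  -- bounds
  have hbd : ∀ t, ∃ C : ℤ, 0 ≤ C ∧ ∀ i, |F t i| ≤ C * (jj i) ^ 6 := by
    intro t
    fin_cases t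
    · obtain ⟨C, hC, hb⟩ := PB_aa k T L
      exact ⟨C, hC, fun i => hb _ (hjj1 i)⟩
    · obtain ⟨C, hC, hb⟩ := PB_bb k T L
      exact ⟨C, hC, fun i => hb _ (hjj1 i)⟩
    · obtain ⟨C, hC, hb⟩ := PB_cc k T L
      exact ⟨C, hC, fun i => hb _ (hjj1 i)⟩
    · obtain ⟨C, hC, hb⟩ := PB_vv k T L
      exact ⟨C, hC, fun i => hb _ (hjj1 i)⟩
    · obtain ⟨C, hC, hb⟩ := uu_bound k T L hk h2
      exact ⟨C, hC, fun i => hb _ _ (hjj1 i) (hq i)⟩
  choose Cb hCb0 hCb using hbd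
  set B : ℤ := |j0| + D * i0 + D with hB
  have hB0 : 0 ≤ B := by
    have := abs_nonneg j0
    positivity
  have hjB : ∀ i : ℕ, jj i ≤ B * ((i : ℤ) + 1) := by
    intro i
    have hi : (0 : ℤ) ≤ i := by positivity
    have h4 := le_abs_self j0
    have h5 := abs_nonneg j0
    show j0 + D * (i0 + i) ≤ B * ((i : ℤ) + 1)
    rw [hB]
    have h6 : 0 ≤ D * i0 := by positivity
    nlinarith
  set Cm : ℤ := (∑ t, Cb t) * B ^ 6 + 1 with hCm
  have hS0 : 0 ≤ ∑ t, Cb t := Finset.sum_nonneg (fun t _ => hCb0 t)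
  have hCm1 : 1 ≤ Cm := by
    have : 0 ≤ (∑ t, Cb t) * B ^ 6 := by positivity
    linarith
  have hFb : ∀ t (i : ℕ), |F t i| ≤ Cm * ((i : ℤ) + 1) ^ 6 := by
    intro t i
    have h3 : Cb t ≤ ∑ t, Cb t := Finset.single_le_sum (fun t _ => hCb0 t) (Finset.mem_univ t)
    have h4 : (jj i) ^ 6 ≤ (B * ((i : ℤ) + 1)) ^ 6 :=
      pow_le_pow_left₀ (by linarith [hjj1 i]) (hjB i) 6
    calc |F t i| ≤ Cb t * (jj i) ^ 6 := hCb t i
      _ ≤ (∑ t, Cb t) * (B * ((i : ℤ) + 1)) ^ 6 :=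
          mul_le_mul h3 h4 (by have := hjj1 i; positivity) hS0
      _ = ((∑ t, Cb t) * B ^ 6) * ((i : ℤ) + 1) ^ 6 := by ring
      _ ≤ Cm * ((i : ℤ) + 1) ^ 6 := by
          apply mul_le_mul_of_nonneg_right _ (by positivity)
          linarith
  obtain ⟨C, hC⟩ : ∃ C : ℕ, (C : ℤ) = Cm := ⟨Cm.toNat, Int.toNat_of_nonneg (by linarith)⟩
  set I0 : ℕ := Finset.univ.sup I with hI0
  have hne : ∀ i, I0 ≤ i → ∀ t, F t i ^ 3 + K ≠ 0 := fun i hi t =>
    hI t i ((Finset.le_sup (Finset.mem_univ t)).trans hi)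
  set P : ℤ → Prop := fun m => m ^ 3 + K ≠ 0 ∧ lam (m ^ 3 + K) = lam (k * (T + 2 * k) * L) with hP
  have hex : ∀ i, I0 ≤ i → ∃ t, P (F t i) := by
    intro i hi
    have hs : -(k * (T + 2 * k) * L) ≠ 0 := neg_ne_zero.mpr (mul_ne_zero (mul_ne_zero hk h2) hL)
    have h5 := one_of_five hs (rel1 k T L (jj i)) (rel2 (hq i)) (rel3 (hq i))
      (hne i hi 0) (hne i hi 1) (hne i hi 2) (hne i hi 4) (hne i hi 3)
    rw [lam_neg] at h5
    rcases h5 with h5 | h5 | h5 | h5 | h5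
    · exact ⟨0, hne i hi 0, h5⟩
    · exact ⟨1, hne i hi 1, h5⟩
    · exact ⟨2, hne i hi 2, h5⟩
    · exact ⟨4, hne i hi 4, h5⟩
    · exact ⟨3, hne i hi 3, h5⟩
  let g : ℕ → ℤ := fun i => if hx : ∃ t, P (F t i) then F hx.choose i else 0
  have hgi : ∀ i, I0 ≤ i → P (g i) ∧ ∃ t, g i = F t i := by
    intro i hi
    have hx := hex i hi
    have e : g i = F hx.choose i := dif_pos hx
    exact ⟨by rw [e]; exact hx.choose_spec, ⟨hx.choose, e⟩⟩
  refine count_abs P g F hF I0 C (by exact_mod_cast (hC ▸ hCm1 : (1 : ℤ) ≤ C)) hgi ?_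
  intro i hi
  obtain ⟨t, ht⟩ := (hgi i hi).2
  rw [ht, hC]
  exact hFb t i

end Pool.Agent.H12.PAR
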